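import Pool.Agent.P.MP_60bbe2_gt.Main

/-!
Among double twist knots, the hyperbolic torsion polynomial determines the Kleinian group up to
conjugacy, hence the complement and its volume.
-/

namespace Pool.Agent.Results.MP_60bbe2_gt.DoubleTwist

open Pool.Agent.P.MP_60bbe2_gt

theorem result (k n k' n' : ℤ) (ρ : KnotGroup k n →* SL2) (ρ' : KnotGroup k' n' →* SL2)
    (h : Admissible ρ) (h' : Admissible ρ') (j : ℤ)
    (e : wada ρ = (RatFunc.X : RatFunc ℂ) ^ j * wada ρ') :
    ∃ g : SL2, ρ'.range = ρ.range.map (MulAut.conj g).toMonoidHom :=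
  main ρ ρ' h h' j e

end Pool.Agent.Results.MP_60bbe2_gt.DoubleTwist
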